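import Mathlib

set_option autoImplicit false

namespace Pool.Agent.WordPSL

open Polynomial Matrix

/-- two by two matrices with polynomial entries -/
abbrev MP := Matrix (Fin 2) (Fin 2) ℂ[X]

/-- first generic matrix -/
noncomputable def gx : SpecialLinearGroup (Fin 2) ℂ[X] :=
  ⟨!![X, -1; 1, 0], by simp [Matrix.det_fin_two]⟩

/-- second generic matrix -/
noncomputable def gy : SpecialLinearGroup (Fin 2) ℂ[X] :=
  ⟨!![X, X + 1; X - 1, X], by simp [Matrix.det_fin_two]; ring⟩

/-- the pair of generic matrices -/
noncomputable def gen : Fin 2 → SpecialLinearGroup (Fin 2) ℂ[X] := ![gx, gy]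

/-- the matrix of a letter -/
noncomputable def letter (a : Fin 2 × Bool) : SpecialLinearGroup (Fin 2) ℂ[X] :=
  cond a.2 (gen a.1) (gen a.1)⁻¹

/-- leading vector of a letter -/
noncomputable def vec (a : Fin 2 × Bool) : Fin 2 → ℂ :=
  if a.1 = 0 then (if a.2 then ![1, 0] else ![0, 1]) else (if a.2 then ![1, 1] else ![1, -1])

theorem letter_x : (letter (0, true) : MP) = !![X, -1; 1, 0] := rfl
theorem letter_y : (letter (1, true) : MP) = !![X, X + 1; X - 1, X] := rfl
theorem letter_X : (letter (0, false) : MP) = !![0, 1; -1, X] := by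
  change adjugate (!![X, -1; 1, 0] : MP) = _
  simp [adjugate_fin_two]
theorem letter_Y : (letter (1, false) : MP) = !![X, -(X + 1); -(X - 1), X] := by
  change adjugate (!![X, X + 1; X - 1, X] : MP) = _
  rw [adjugate_fin_two_of]

theorem letter_deg (a : Fin 2 × Bool) (i j : Fin 2) :
    ((letter a : MP) i j).natDegree ≤ 1 ∧ ((letter a : MP) i j).coeff 1 = vec a i * vec a j := by
  obtain ⟨k, b⟩ := a
  have e1 : (X + 1 : ℂ[X]).natDegree ≤ 1 := by compute_degree
  have e2 : (X - 1 : ℂ[X]).natDegree ≤ 1 := by compute_degree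
  have e3 : (-(X + 1) : ℂ[X]).natDegree ≤ 1 := by rw [natDegree_neg]; exact e1
  have e4 : (-(X - 1) : ℂ[X]).natDegree ≤ 1 := by rw [natDegree_neg]; exact e2
  have e5 : (X : ℂ[X]).natDegree ≤ 1 := by compute_degree
  have h1 : (1 : ℂ[X]).coeff 1 = 0 := by simp [coeff_one]
  fin_cases k <;> cases b
  · rw [show letter ((fun i => i) (⟨0, by decide⟩ : Fin 2), false) = letter (0, false) from rfl,
      letter_X]
    fin_cases i <;> fin_cases j <;> simp [vec, h1]
  · rw [show letter ((fun i => i) (⟨0, by decide⟩ : Fin 2), true) = letter (0, true) from rfl,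
      letter_x]
    fin_cases i <;> fin_cases j <;> simp [vec, h1]
  · rw [show letter ((fun i => i) (⟨1, by decide⟩ : Fin 2), false) = letter (1, false) from rfl,
      letter_Y]
    fin_cases i <;> fin_cases j <;> simp [vec, h1]
    · have := e3
      rwa [neg_add_rev] at this
    · have := e4
      rwa [neg_sub] at this
  · rw [show letter ((fun i => i) (⟨1, by decide⟩ : Fin 2), true) = letter (1, true) from rfl,
      letter_y]
    fin_cases i <;> fin_cases j <;> simp [vec, h1]
    · exact e1
    · exact e2

/-- leading pairing -/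
theorem vec_pair (a b : Fin 2 × Bool) (h : a.1 = b.1 → a.2 = b.2) :
    vec a 0 * vec b 0 + vec a 1 * vec b 1 ≠ 0 := by
  obtain ⟨k, s⟩ := a
  obtain ⟨l, t⟩ := b
  fin_cases k <;> fin_cases l <;> cases s <;> cases t <;> simp [vec] at h ⊢

/-- the product of the letters of a word, as a matrix -/
noncomputable def wmat (L : List (Fin 2 × Bool)) : MP :=
  (((L.map letter).prod : SpecialLinearGroup (Fin 2) ℂ[X]) : MP)

theorem wmat_cons (a : Fin 2 × Bool) (L : List (Fin 2 × Bool)) :
    wmat (a :: L) = (letter a : MP) * wmat L := by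
  unfold wmat
  rw [List.map_cons, List.prod_cons]
  rfl

/-- degree and leading coefficient of the product of the letters of a reduced word -/
theorem prod_deg (L : List (Fin 2 × Bool)) (hne : L ≠ [])
    (hred : L.IsChain (fun a b => a.1 = b.1 → a.2 = b.2)) :
    ∃ c : ℂ, c ≠ 0 ∧ ∀ i j, (wmat L i j).natDegree ≤ L.length ∧
      (wmat L i j).coeff L.length = c * vec (L.head hne) i * vec (L.getLast hne) j := by
  induction L with
  | nil => exact absurd rfl hne
  | cons a L ih =>
    by_cases hL : L = []
    · subst hL
      refine ⟨1, one_ne_zero, fun i j => ?_⟩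
      have := letter_deg a i j
      simpa [wmat] using this
    · have hred' : L.IsChain (fun a b => a.1 = b.1 → a.2 = b.2) := by
        exact hred.tail
      obtain ⟨c, hc, hcd⟩ := ih hL hred'
      have hab : a.1 = (L.head hL).1 → a.2 = (L.head hL).2 := by
        cases L with
        | nil => exact absurd rfl hL
        | cons b L' => simpa using (List.isChain_cons_cons.1 hred).1
      refine ⟨c * (vec a 0 * vec (L.head hL) 0 + vec a 1 * vec (L.head hL) 1),
        mul_ne_zero hc (vec_pair _ _ hab), fun i j => ?_⟩
      have key : wmat (a :: L) i j =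
          (letter a : MP) i 0 * wmat L 0 j + (letter a : MP) i 1 * wmat L 1 j := by
        rw [wmat_cons, Matrix.mul_apply, Fin.sum_univ_two]
      have d0 := letter_deg a i 0
      have d1 := letter_deg a i 1
      have f0 := hcd 0 j
      have f1 := hcd 1 j
      have len : (a :: L).length = 1 + L.length := by simp [add_comm]
      rw [key, len]
      constructor
      · refine natDegree_add_le_of_degree_le ?_ ?_
        · exact natDegree_mul_le_of_le d0.1 f0.1
        · exact natDegree_mul_le_of_le d1.1 f1.1
      · rw [coeff_add, coeff_mul_add_eq_of_natDegree_le d0.1 f0.1,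
          coeff_mul_add_eq_of_natDegree_le d1.1 f1.1, d0.2, d1.2, f0.2, f1.2]
        simp only [List.head_cons, List.getLast_cons hL]
        ring

end Pool.Agent.WordPSL
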