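import Mathlib

set_option autoImplicit false

namespace Pool.Agent.WordPSL

open Polynomial

/-- For a nonconstant complex polynomial `p`, not every root of `p ^ 2 - 4` is multiple. -/
theorem exists_simple_root (p : ℂ[X]) (hp : 1 ≤ p.natDegree) :
    ∃ z : ℂ, (p.eval z) ^ 2 = 4 ∧ ¬ (X - C z) ^ 2 ∣ p ^ 2 - C 4 := by
  by_contra hcon
  push Not at hcon
  set q : ℂ[X] := p ^ 2 - C 4 with hq
  have hp0 : p ≠ 0 := by rintro rfl; simp at hp
  have hdegq : q.natDegree = 2 * p.natDegree := by
    rw [hq, natDegree_sub_C, natDegree_pow]
  have hq0 : q ≠ 0 := by
    intro h; rw [h] at hdegq; simp at hdegq; omega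
  have hder : derivative p ≠ 0 := by
    intro h
    have := derivative_eq_zero.1 h
    omega
  have hdq : derivative q = (C 2 * p) * derivative p := by
    rw [hq]; simp [derivative_pow]
  have hdegd : (derivative p).natDegree ≤ p.natDegree - 1 := natDegree_derivative_le p
  have hle : q.roots ≤ (derivative p).roots + (derivative p).roots := by
    classical
    rw [Multiset.le_iff_count]
    intro z
    rw [Multiset.count_add, count_roots, count_roots]
    by_cases hz : q.IsRoot z
    · have h2 : 2 ≤ q.rootMultiplicity z := by
        rw [le_rootMultiplicity_iff hq0]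
        apply hcon
        have : q.eval z = 0 := hz
        rw [hq] at this
        simp at this
        linear_combination this
      have h3 := derivative_rootMultiplicity_of_root hz
      have hpz : ¬ (C 2 * p).IsRoot z := by
        intro h
        have h4 : (2 : ℂ) * p.eval z = 0 := by simpa [IsRoot] using h
        have h5 : p.eval z = 0 := by simpa using h4
        have : q.eval z = 0 := hz
        rw [hq] at this
        simp [h5] at this
      have hne : (C 2 * p) * derivative p ≠ 0 := by
        refine mul_ne_zero (mul_ne_zero ?_ hp0) hder
        simp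
      rw [hdq, rootMultiplicity_mul hne, rootMultiplicity_eq_zero hpz] at h3
      omega
    · rw [rootMultiplicity_eq_zero hz]
      exact Nat.zero_le _
  have hcard := Multiset.card_le_card hle
  rw [Multiset.card_add, IsAlgClosed.card_roots_eq_natDegree, IsAlgClosed.card_roots_eq_natDegree,
    hdegq] at hcard
  omega

end Pool.Agent.WordPSL
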