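import Mathlib
import Pool.Agent.WordPSL.Basic
import Pool.Agent.WordPSL.Count

set_option autoImplicit false

namespace Pool.Agent.WordPSL

open Polynomial Matrix

/-- entrywise description of scalar two by two matrices -/
def IsSc (M : Matrix (Fin 2) (Fin 2) ℂ) : Prop := M 0 1 = 0 ∧ M 1 0 = 0 ∧ M 0 0 = M 1 1

/-- A nonscalar matrix of determinant one is conjugate to its companion matrix. -/
theorem conj_companion (M : SpecialLinearGroup (Fin 2) ℂ)
    (hM : ¬ IsSc (M : Matrix (Fin 2) (Fin 2) ℂ)) :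
    ∃ (P C : SpecialLinearGroup (Fin 2) ℂ),
      (C : Matrix (Fin 2) (Fin 2) ℂ) = !![0, -1; 1, M 0 0 + M 1 1] ∧ M * P = P * C := by
  obtain ⟨v0, v1, hv⟩ : ∃ v0 v1 : ℂ,
      M 1 0 * v0 ^ 2 + (M 1 1 - M 0 0) * v0 * v1 - M 0 1 * v1 ^ 2 ≠ 0 := by
    by_contra hcon
    push Not at hcon
    apply hM
    have h1 := hcon 1 0
    have h2 := hcon 0 1
    have h3 := hcon 1 1
    simp at h1 h2 h3
    refine ⟨h2, h1, ?_⟩
    rw [h1, h2] at h3
    linear_combination -h3
  set δ := M 1 0 * v0 ^ 2 + (M 1 1 - M 0 0) * v0 * v1 - M 0 1 * v1 ^ 2 with hδ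
  obtain ⟨s, hs⟩ : ∃ s : ℂ, s ^ 2 = δ⁻¹ := by
    obtain ⟨s, hs⟩ := IsAlgClosed.exists_pow_nat_eq (δ⁻¹) (n := 2) (by norm_num)
    exact ⟨s, hs⟩
  have hdet : M 0 0 * M 1 1 - M 0 1 * M 1 0 = 1 := by
    have := M.det_coe
    rwa [Matrix.det_fin_two] at this
  have hs2 : s ^ 2 * δ = 1 := by rw [hs]; exact inv_mul_cancel₀ hv
  refine ⟨⟨!![s * v0, s * (M 0 0 * v0 + M 0 1 * v1); s * v1, s * (M 1 0 * v0 + M 1 1 * v1)], ?_⟩,
    ⟨!![0, -1; 1, M 0 0 + M 1 1], ?_⟩, rfl, ?_⟩
  · rw [Matrix.det_fin_two_of]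
    rw [hδ] at hs2
    linear_combination hs2
  · rw [Matrix.det_fin_two_of]; ring
  · apply Subtype.ext
    change (M : Matrix (Fin 2) (Fin 2) ℂ) * _ = _ * _
    ext i j
    fin_cases i <;> fin_cases j <;> simp [Matrix.mul_apply, Fin.sum_univ_two]
    · ring
    · linear_combination (-s * v0) * hdet
    · ring
    · linear_combination (-s * v1) * hdet

/-- Nonscalar matrices of determinant one with the same trace are conjugate. -/
theorem conj_of_trace (M N : SpecialLinearGroup (Fin 2) ℂ)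
    (hM : ¬ IsSc (M : Matrix (Fin 2) (Fin 2) ℂ)) (hN : ¬ IsSc (N : Matrix (Fin 2) (Fin 2) ℂ))
    (htr : M 0 0 + M 1 1 = N 0 0 + N 1 1) :
    ∃ P : SpecialLinearGroup (Fin 2) ℂ, P * M * P⁻¹ = N := by
  obtain ⟨P, C, hC, hP⟩ := conj_companion M hM
  obtain ⟨Q, D, hD, hQ⟩ := conj_companion N hN
  have hCD : C = D := by
    apply Subtype.ext
    exact hC.trans (by rw [htr]; exact hD.symm)
  refine ⟨Q * P⁻¹, ?_⟩
  have h1 : P⁻¹ * M * P = C := by rw [mul_assoc, hP]; group
  have h2 : Q * D * Q⁻¹ = N := by rw [← hQ]; group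
  calc Q * P⁻¹ * M * (Q * P⁻¹)⁻¹ = Q * (P⁻¹ * M * P) * Q⁻¹ := by group
    _ = N := by rw [h1, hCD, h2]

/-- The value of the word at the generic pair. -/
noncomputable def W (w : FreeGroup (Fin 2)) : SpecialLinearGroup (Fin 2) ℂ[X] :=
  FreeGroup.lift gen w

theorem W_mk (L : List (Fin 2 × Bool)) : (W (FreeGroup.mk L) : MP) = wmat L := by
  unfold W wmat
  rw [FreeGroup.lift_mk]
  rfl

/-- The trace of the generic value of a nontrivial word is a nonconstant polynomial. -/
theorem trace_deg (w : FreeGroup (Fin 2)) (hw : w ≠ 1) :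
    1 ≤ ((W w : MP) 0 0 + (W w : MP) 1 1).natDegree := by
  classical
  set L := w.toWord with hL
  have hred : FreeGroup.IsReduced L := FreeGroup.isReduced_toWord
  set R := FreeGroup.reduceCyclically L with hR
  set K := FreeGroup.reduceCyclically.conjugator L with hK
  have hcyc : FreeGroup.IsCyclicallyReduced R :=
    FreeGroup.reduceCyclically.isCyclicallyReduced hred
  have hconj : K ++ R ++ FreeGroup.invRev K = L :=
    FreeGroup.reduceCyclically.conj_conjugator_reduceCyclically L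
  have hw' : w = FreeGroup.mk K * FreeGroup.mk R * (FreeGroup.mk K)⁻¹ := by
    rw [FreeGroup.inv_mk, FreeGroup.mul_mk, FreeGroup.mul_mk, hconj, hL, FreeGroup.mk_toWord]
  have hRne : R ≠ [] := by
    intro h
    apply hw
    rw [hw', h, ← FreeGroup.one_eq_mk]
    group
  have htr : (W w : MP) 0 0 + (W w : MP) 1 1 = wmat R 0 0 + wmat R 1 1 := by
    have h1 : W w = W (FreeGroup.mk K) * W (FreeGroup.mk R) * (W (FreeGroup.mk K))⁻¹ := by
      conv_lhs => rw [hw']
      simp only [W, map_mul, map_inv]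
    have h2 : Matrix.trace (W w : MP) = Matrix.trace (W (FreeGroup.mk R) : MP) := by
      rw [h1]
      change Matrix.trace ((W (FreeGroup.mk K) : MP) * (W (FreeGroup.mk R) : MP) *
        (((W (FreeGroup.mk K))⁻¹ : SpecialLinearGroup (Fin 2) ℂ[X]) : MP)) = _
      rw [Matrix.trace_mul_cycle]
      have h3 : (((W (FreeGroup.mk K))⁻¹ : SpecialLinearGroup (Fin 2) ℂ[X]) : MP) *
          (W (FreeGroup.mk K) : MP) = 1 := by
        have := inv_mul_cancel (W (FreeGroup.mk K))
        exact congrArg (fun A : SpecialLinearGroup (Fin 2) ℂ[X] => (A : MP)) this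
      rw [h3, one_mul]
    rw [W_mk, Matrix.trace_fin_two, Matrix.trace_fin_two] at h2
    exact h2
  rw [htr]
  obtain ⟨c, hc, hcd⟩ := prod_deg R hRne hcyc.isReduced
  have hlast : (R.getLast hRne).1 = (R.head hRne).1 → (R.getLast hRne).2 = (R.head hRne).2 :=
    hcyc.2 _ (List.getLast_mem_getLast? hRne) _ (List.head_mem_head? hRne)
  have hcoef : (wmat R 0 0 + wmat R 1 1).coeff R.length ≠ 0 := by
    rw [coeff_add, (hcd 0 0).2, (hcd 1 1).2]
    have := mul_ne_zero hc (vec_pair _ _ hlast)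
    intro h
    apply this
    linear_combination h
  have hlen : 1 ≤ R.length := by
    rw [Nat.one_le_iff_ne_zero]
    intro h
    exact hRne (List.length_eq_zero_iff.1 h)
  exact hlen.trans (le_natDegree_of_ne_zero hcoef)

/-- evaluation of the generic pair -/
noncomputable def evm (z : ℂ) : SpecialLinearGroup (Fin 2) ℂ[X] →* SpecialLinearGroup (Fin 2) ℂ :=
  SpecialLinearGroup.map (evalRingHom z)

theorem evm_apply (z : ℂ) (M : SpecialLinearGroup (Fin 2) ℂ[X]) (i j : Fin 2) :
    (evm z M) i j = ((M : MP) i j).eval z := rfl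

/-- Every trace value is attained, up to sign, at a nonscalar value of the word. -/
theorem exists_nonscalar (w : FreeGroup (Fin 2)) (hw : w ≠ 1) (τ : ℂ) :
    ∃ (z : ℂ), ¬ IsSc (evm z (W w) : Matrix (Fin 2) (Fin 2) ℂ) ∧
      ((evm z (W w)) 0 0 + (evm z (W w)) 1 1 = τ ∨
        (evm z (W w)) 0 0 + (evm z (W w)) 1 1 = -τ) := by
  set p := (W w : MP) 0 0 + (W w : MP) 1 1 with hp
  have hdeg : 1 ≤ p.natDegree := trace_deg w hw
  have htr : ∀ z, (evm z (W w)) 0 0 + (evm z (W w)) 1 1 = p.eval z := by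
    intro z
    rw [evm_apply, evm_apply, hp, eval_add]
  have hdetp : (W w : MP) 0 0 * (W w : MP) 1 1 - (W w : MP) 0 1 * (W w : MP) 1 0 = 1 := by
    have := (W w).det_coe
    rwa [Matrix.det_fin_two] at this
  by_cases hτ : τ ^ 2 = 4
  · obtain ⟨z, hz1, hz2⟩ := exists_simple_root p hdeg
    refine ⟨z, ?_, ?_⟩
    · rintro ⟨h1, h2, h3⟩
      apply hz2
      have hd1 : (X - C z) ∣ (W w : MP) 0 1 := by
        rw [dvd_iff_isRoot]; exact h1
      have hd2 : (X - C z) ∣ (W w : MP) 1 0 := by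
        rw [dvd_iff_isRoot]; exact h2
      have hd3 : (X - C z) ∣ (W w : MP) 0 0 - (W w : MP) 1 1 := by
        rw [dvd_iff_isRoot, IsRoot, eval_sub]
        have h3' : ((W w : MP) 0 0).eval z = ((W w : MP) 1 1).eval z := h3
        rw [h3', sub_self]
      have key : p ^ 2 - C 4 = ((W w : MP) 0 0 - (W w : MP) 1 1) ^ 2 +
          4 * ((W w : MP) 0 1 * (W w : MP) 1 0) := by
        rw [hp]
        have h4 : (C 4 : ℂ[X]) = 4 := rfl
        rw [h4]
        linear_combination 4 * hdetp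
      rw [key]
      refine dvd_add (pow_dvd_pow_of_dvd hd3 2) (Dvd.dvd.mul_left ?_ _)
      rw [sq]
      exact mul_dvd_mul hd1 hd2
    · rw [htr]
      have : (p.eval z - τ) * (p.eval z + τ) = 0 := by linear_combination hz1 - hτ
      rcases mul_eq_zero.1 this with h | h
      · left; linear_combination h
      · right; linear_combination h
  · obtain ⟨z, hz⟩ := IsAlgClosed.exists_root (p - C τ) (by
      intro h
      have h5 : (p - C τ).natDegree = 0 := natDegree_eq_of_degree_eq_some h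
      rw [natDegree_sub_C] at h5
      omega)
    have hz' : p.eval z = τ := by
      have : (p - C τ).eval z = 0 := hz
      simp at this
      linear_combination this
    refine ⟨z, ?_, Or.inl ?_⟩
    · rintro ⟨h1, h2, h3⟩
      apply hτ
      have hdet : (evm z (W w)) 0 0 * (evm z (W w)) 1 1 - (evm z (W w)) 0 1 * (evm z (W w)) 1 0
          = 1 := by
        have := (evm z (W w)).det_coe
        rwa [Matrix.det_fin_two] at this
      have hzt := (htr z).trans hz'
      have h1' : (evm z (W w)) 0 1 = 0 := h1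
      have h3' : (evm z (W w)) 0 0 = (evm z (W w)) 1 1 := h3
      rw [h1'] at hdet
      rw [h3'] at hdet hzt
      linear_combination 4 * hdet - (2 * (evm z (W w)) 1 1 + τ) * hzt
    · rw [htr, hz']

/-- Word maps on `PSL_2(ℂ)` are surjective. -/
theorem surj (w : FreeGroup (Fin 2)) (hw : w ≠ 1)
    (a : SpecialLinearGroup (Fin 2) ℂ ⧸ Subgroup.center (SpecialLinearGroup (Fin 2) ℂ)) :
    ∃ g : Fin 2 → SpecialLinearGroup (Fin 2) ℂ ⧸
        Subgroup.center (SpecialLinearGroup (Fin 2) ℂ), FreeGroup.lift g w = a := by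
  set π := QuotientGroup.mk' (Subgroup.center (SpecialLinearGroup (Fin 2) ℂ)) with hπ
  obtain ⟨A, rfl⟩ := QuotientGroup.mk'_surjective _ a
  by_cases hA : IsSc (A : Matrix (Fin 2) (Fin 2) ℂ)
  · refine ⟨fun _ => 1, ?_⟩
    have h1 : A ∈ Subgroup.center (SpecialLinearGroup (Fin 2) ℂ) := by
      rw [Matrix.SpecialLinearGroup.mem_center_iff]
      obtain ⟨h1, h2, h3⟩ := hA
      refine ⟨(A : Matrix (Fin 2) (Fin 2) ℂ) 0 0, ?_, ?_⟩
      · have hdet := A.det_coe
        rw [Matrix.det_fin_two] at hdet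
        rw [h1, ← h3] at hdet
        simp only [Fintype.card_fin]
        linear_combination hdet
      · ext i j
        fin_cases i <;> fin_cases j <;> simp [h1, h2, h3]
    have h2 : QuotientGroup.mk' (Subgroup.center (SpecialLinearGroup (Fin 2) ℂ)) A = 1 :=
      (QuotientGroup.eq_one_iff A).2 h1
    rw [h2]
    have h3 : (FreeGroup.lift (fun _ : Fin 2 => (1 : SpecialLinearGroup (Fin 2) ℂ ⧸
        Subgroup.center (SpecialLinearGroup (Fin 2) ℂ)))) = 1 := by
      ext x; simp
    rw [h3]; rfl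
  · obtain ⟨z, hz1, hz2⟩ := exists_nonscalar w hw (A 0 0 + A 1 1)
    have hB : ∃ B : SpecialLinearGroup (Fin 2) ℂ, π B = π A ∧
        ¬ IsSc (B : Matrix (Fin 2) (Fin 2) ℂ) ∧
        (evm z (W w)) 0 0 + (evm z (W w)) 1 1 = B 0 0 + B 1 1 := by
      rcases hz2 with h | h
      · exact ⟨A, rfl, hA, h⟩
      · refine ⟨-A, ?_, ?_, ?_⟩
        · have hneg : (-A : SpecialLinearGroup (Fin 2) ℂ) = (-1) * A := by simp
          rw [hneg, map_mul]
          have : π (-1) = 1 := by
            rw [hπ]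
            apply (QuotientGroup.eq_one_iff _).2
            rw [Subgroup.mem_center_iff]
            intro g; simp
          rw [this, one_mul]
        · rintro ⟨h1, h2, h3⟩
          apply hA
          have e : ((-A : SpecialLinearGroup (Fin 2) ℂ) : Matrix (Fin 2) (Fin 2) ℂ) =
            -(A : Matrix (Fin 2) (Fin 2) ℂ) := rfl
          rw [e] at h1 h2 h3
          simp only [Matrix.neg_apply, neg_eq_zero, neg_inj] at h1 h2 h3
          exact ⟨h1, h2, h3⟩
        · rw [h]
          change _ = -(A 0 0) + -(A 1 1)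
          ring
    obtain ⟨B, hBA, hBs, hBt⟩ := hB
    obtain ⟨P, hP⟩ := conj_of_trace (evm z (W w)) B hz1 hBs hBt
    refine ⟨fun i => π (P * evm z (gen i) * P⁻¹), ?_⟩
    change _ = π A
    rw [← hBA, ← hP]
    have hhom : FreeGroup.lift (fun i => π (P * evm z (gen i) * P⁻¹)) =
        ((π.comp (MulAut.conj P).toMonoidHom).comp (evm z)).comp (FreeGroup.lift gen) := by
      ext i
      simp [MulAut.conj_apply]
    rw [hhom]
    rfl

end Pool.Agent.WordPSL
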